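import Mathlib
import Pool.Agent.W968.SSC.KM
import Pool.Agent.W968.SCx.Final
import Pool.Agent.Helper227.Test

/-!
# The weak degrees of all the classes of shift complex and strongly shift complex sequences

For all `α, β` in `(0, 1)`: each of the classes `SC(α)` and `SSC(α)` is weakly reducible to each of
the classes `SC(β)` and `SSC(β)` if and only if `α ≤ β`. So the weak order on all these classes is
the order of the parameters, and for `α < β` even some strongly `α`-shift complex sequence computes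
no `β`-shift complex sequence, while every `β`-shift complex sequence computes a strongly `α`-shift
complex sequence. The separation of `SC(α)` from `SC(β)` (`Pool.Agent.W968.SCx.main`) and the
equivalence of `SC(α)` and `SSC(α)` (`Pool.Agent.W968.SSC.main`) are those of the starting library.
-/

set_option autoImplicit false

namespace Pool.Agent.Results.MP_a32fd7_lc.OrderOfAllClasses

open Pool.Agent.Helper227 Pool.Agent.W968.SCx Pool.Agent.W968.SSC

theorem weakLe_trans {P Q R : Set (ℕ → Bool)} (h : WeakLe P Q) (h' : WeakLe Q R) :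
    WeakLe P R := by
  intro Z hZ
  obtain ⟨Y, hY, hYZ⟩ := h' Z hZ
  obtain ⟨X, hX, hXY⟩ := h Y hY
  exact ⟨X, hX, TLe.trans hXY hYZ⟩

theorem sc_iff (U : List Bool →. List Bool) (hU : IsUniversal U) (α β : ℝ) (hα : α < 1)
    (hβ : 0 < β) : WeakLe (SC U α) (SC U β) ↔ α ≤ β := by
  constructor
  · intro h
    by_contra hlt
    obtain ⟨X, hX, hXn⟩ := Pool.Agent.W968.SCx.main hU hβ (not_le.1 hlt) hα
    obtain ⟨Y, hY, hYX⟩ := h X hX
    exact hXn Y hYX hY
  · intro hαβ Y hY
    refine ⟨Y, ?_, TLe.refl Y⟩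
    obtain ⟨c, hc⟩ := hY
    refine ⟨c, fun k l => le_trans ?_ (hc k l)⟩
    have h1 : α * (l : ℝ) ≤ β * l := mul_le_mul_of_nonneg_right hαβ (Nat.cast_nonneg l)
    linarith

/-- For all `α, β` in `(0, 1)`, if `P` is `SC(α)` or `SSC(α)` and `Q` is `SC(β)` or `SSC(β)`, then
`P ≤_w Q` if and only if `α ≤ β`. -/
theorem result (U : List Bool →. List Bool) (hU : IsUniversal U) (M : List Bool → ℝ)
    (hM : IsUniversalSM M) (α β : ℝ) (hα : 0 < α) (hα1 : α < 1) (hβ : 0 < β) (_hβ1 : β < 1)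
    (P Q : Set (ℕ → Bool)) (hP : P = SC U α ∨ P = SSC M α) (hQ : Q = SC U β ∨ Q = SSC M β) :
    WeakLe P Q ↔ α ≤ β := by
  have e : ∀ δ : ℝ, 0 < δ → WeakLe (SC U δ) (SSC M δ) ∧ WeakLe (SSC M δ) (SC U δ) := fun δ hδ =>
    ⟨fun Y hY => ⟨Y, (Pool.Agent.W968.SSC.main hU hM hδ).1 Y hY, TLe.refl Y⟩,
      fun X hX => (Pool.Agent.W968.SSC.main hU hM hδ).2 X hX⟩
  have h0 : ∀ R : Set (ℕ → Bool), WeakLe R R := fun R Y hY => ⟨Y, hY, TLe.refl Y⟩
  have eP : WeakLe (SC U α) P ∧ WeakLe P (SC U α) := by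
    rcases hP with rfl | rfl
    · exact ⟨h0 _, h0 _⟩
    · exact e α hα
  have eQ : WeakLe (SC U β) Q ∧ WeakLe Q (SC U β) := by
    rcases hQ with rfl | rfl
    · exact ⟨h0 _, h0 _⟩
    · exact e β hβ
  rw [← sc_iff U hU α β hα1 hβ]
  exact ⟨fun h => weakLe_trans (weakLe_trans eP.1 h) eQ.2,
    fun h => weakLe_trans (weakLe_trans eP.2 h) eQ.1⟩

end Pool.Agent.Results.MP_a32fd7_lc.OrderOfAllClasses
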